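import Pool.Agent.W661.RC.Stm3

/-!
# RC-GE2: unitaries with prescribed centralizer
-/

set_option autoImplicit false

namespace Pool.Agent.W18.RC.GE2

open Matrix
open scoped ComplexOrder
open Pool.Agent.W661.RC

noncomputable section

lemma hs_tr {m n : Type} [Fintype m] [Fintype n] (x : Matrix m n ℂ) :
    hs x = (Matrix.trace (xᴴ * x)).re := by
  unfold hs
  rw [Finset.sum_comm]
  simp only [Matrix.trace, Matrix.diag_apply, Matrix.mul_apply, Matrix.conjTranspose_apply,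
    Complex.re_sum]
  refine Finset.sum_congr rfl fun j _ => Finset.sum_congr rfl fun i _ => ?_
  have h : (starRingEnd ℂ) (x i j) * x i j = ((‖x i j‖ ^ 2 : ℝ) : ℂ) := by
    rw [Complex.conj_mul']
    push_cast
    rfl
  change _ = ((starRingEnd ℂ) (x i j) * x i j).re
  rw [h, Complex.ofReal_re]

lemma hs_nn {m n : Type} [Fintype m] [Fintype n] (x : Matrix m n ℂ) : 0 ≤ hs x := hs_nonneg' x

lemma hs_iso_left {m n p : Type} [Fintype m] [Fintype n] [Fintype p] [DecidableEq m]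
    (a : Matrix p m ℂ) (h : aᴴ * a = 1) (x : Matrix m n ℂ) : hs (a * x) = hs x := by
  rw [hs_tr, hs_tr, Matrix.conjTranspose_mul, Matrix.mul_assoc, ← Matrix.mul_assoc aᴴ, h,
    Matrix.one_mul]

lemma hs_iso_right {m n p : Type} [Fintype m] [Fintype n] [Fintype p] [DecidableEq n]
    (a : Matrix p n ℂ) (h : aᴴ * a = 1) (x : Matrix m n ℂ) : hs (x * aᴴ) = hs x := by
  rw [← hs_conj, Matrix.conjTranspose_mul, Matrix.conjTranspose_conjTranspose,
    hs_iso_left a h, hs_conj]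

lemma hs_coiso_left {m n p : Type} [Fintype m] [Fintype n] [Fintype p] [DecidableEq m]
    [DecidableEq p] (a : Matrix p m ℂ) (h : aᴴ * a = 1) (x : Matrix p n ℂ) :
    hs (aᴴ * x) ≤ hs x := by
  have h1 : hs x = hs (aᴴ * x) + hs (x - a * (aᴴ * x)) := by
    rw [hs_tr x, hs_tr (aᴴ * x), hs_tr (x - a * (aᴴ * x)), ← Complex.add_re, ← Matrix.trace_add]
    congr 2
    have h2 : (x - a * (aᴴ * x))ᴴ * (x - a * (aᴴ * x)) = xᴴ * x - (aᴴ * x)ᴴ * (aᴴ * x) := by
      rw [Matrix.conjTranspose_sub, Matrix.conjTranspose_mul, Matrix.conjTranspose_mul,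
        Matrix.conjTranspose_conjTranspose, Matrix.sub_mul, Matrix.mul_sub, Matrix.mul_sub]
      have e1 : xᴴ * a * aᴴ * (a * (aᴴ * x)) = xᴴ * a * (aᴴ * x) := by
        rw [Matrix.mul_assoc (xᴴ * a) aᴴ, ← Matrix.mul_assoc aᴴ a, h, Matrix.one_mul]
      rw [e1]
      have e2 : xᴴ * (a * (aᴴ * x)) = xᴴ * a * (aᴴ * x) := by rw [Matrix.mul_assoc]
      have e3 : xᴴ * a * aᴴ * x = xᴴ * a * (aᴴ * x) := by rw [Matrix.mul_assoc (xᴴ * a)]
      rw [e2, e3]
      abel
    rw [h2]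
    abel
  have := hs_nn (x - a * (aᴴ * x))
  linarith

lemma hs_add3 {m n : Type} [Fintype m] [Fintype n] (x y z : Matrix m n ℂ) :
    hs (x + y + z) ≤ 3 * hs x + 3 * hs y + 3 * hs z := by
  unfold hs
  rw [Finset.mul_sum, Finset.mul_sum, Finset.mul_sum, ← Finset.sum_add_distrib,
    ← Finset.sum_add_distrib]
  refine Finset.sum_le_sum fun i _ => ?_
  rw [Finset.mul_sum, Finset.mul_sum, Finset.mul_sum, ← Finset.sum_add_distrib,
    ← Finset.sum_add_distrib]
  refine Finset.sum_le_sum fun j _ => ?_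
  have h : ‖(x + y + z) i j‖ ≤ ‖x i j‖ + ‖y i j‖ + ‖z i j‖ :=
    (norm_add_le _ _).trans (add_le_add_left (norm_add_le _ _) _)
  have h0 : ‖(x + y + z) i j‖ ^ 2 ≤ (‖x i j‖ + ‖y i j‖ + ‖z i j‖) ^ 2 :=
    pow_le_pow_left₀ (norm_nonneg _) h 2
  nlinarith [sq_nonneg (‖x i j‖ - ‖y i j‖), sq_nonneg (‖x i j‖ - ‖z i j‖),
    sq_nonneg (‖y i j‖ - ‖z i j‖)]

lemma hs_add2 {m n : Type} [Fintype m] [Fintype n] (x y : Matrix m n ℂ) :
    hs (x + y) ≤ 2 * hs x + 2 * hs y := hs_add_le_two x y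

lemma hs_sub2 {m n : Type} [Fintype m] [Fintype n] (x y : Matrix m n ℂ) :
    hs (x - y) ≤ 2 * hs x + 2 * hs y := by
  rw [sub_eq_add_neg]
  have := hs_add_le_two x (-y)
  rwa [hs_neg'] at this

lemma hs_one (n : Type) [Fintype n] [DecidableEq n] : hs (1 : Matrix n n ℂ) = Fintype.card n := by
  rw [hs_tr]
  simp

/-- Row blocks. -/
def rb {I n : Type} {l : I → ℕ} (Y : Matrix (Σ i : I, Fin (l i)) n ℂ) (i : I) :
    Matrix (Fin (l i)) n ℂ := fun a j => Y ⟨i, a⟩ j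

lemma hs_rb {I n : Type} [Fintype I] [Fintype n] {l : I → ℕ}
    (Y : Matrix (Σ i : I, Fin (l i)) n ℂ) : hs Y = ∑ i, hs (rb Y i) := by
  unfold hs rb
  rw [Fintype.sum_sigma]

lemma rb_mul {I n : Type} [Fintype I] [DecidableEq I] {l : I → ℕ}
    (M : (i : I) → Matrix (Fin (l i)) (Fin (l i)) ℂ)
    (Y : Matrix (Σ i : I, Fin (l i)) n ℂ) (i : I) :
    rb (blockDiagonal' M * Y) i = M i * rb Y i := by
  ext a j
  simp only [rb, Matrix.mul_apply, Fintype.sum_sigma]
  rw [Finset.sum_eq_single i]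
  · refine Finset.sum_congr rfl fun e _ => ?_
    rw [blockDiagonal'_apply_eq]
  · intro i' _ hne
    refine Finset.sum_eq_zero fun e _ => ?_
    rw [blockDiagonal'_apply_ne _ _ _ (Ne.symm hne), zero_mul]
  · intro h
    exact absurd (Finset.mem_univ _) h

lemma hs_bd {I : Type} [Fintype I] [DecidableEq I] {l : I → ℕ}
    (M : (i : I) → Matrix (Fin (l i)) (Fin (l i)) ℂ) :
    hs (blockDiagonal' M) = ∑ i, hs (M i) := by
  unfold hs
  rw [Fintype.sum_sigma]
  refine Finset.sum_congr rfl fun i _ => Finset.sum_congr rfl fun a _ => ?_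
  rw [Fintype.sum_sigma, Finset.sum_eq_single i]
  · refine Finset.sum_congr rfl fun e _ => ?_
    rw [blockDiagonal'_apply_eq]
  · intro i' _ hne
    refine Finset.sum_eq_zero fun e _ => ?_
    rw [blockDiagonal'_apply_ne _ _ _ (Ne.symm hne)]
    simp
  · intro h
    exact absurd (Finset.mem_univ _) h

lemma Ut_eq {I K : Type} [DecidableEq I] {d : ℕ} (c : I → K) (l : K → ℕ)
    (b : (κ : K) → Matrix (Fin d) (Fin (l κ)) ℂ) (u : Mt d) :
    Ut c l b u = blockDiagonal' (fun i => (b (c i))ᴴ * u * b (c i)) := by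
  ext ⟨i, a⟩ ⟨j, e⟩
  unfold Ut
  by_cases h : i = j
  · subst h
    simp [blockDiagonal'_apply_eq]
  · simp [blockDiagonal'_apply_ne _ _ _ h, h]

/-- The complement isometry. -/
lemma exists_compl {d : ℕ} {J : Type} [Fintype J] [DecidableEq J] (Θ : Matrix (Fin d) J ℂ)
    (h : Θᴴ * Θ = 1) : ∃ (r : ℕ) (Θ' : Matrix (Fin d) (Fin r) ℂ),
      r + Fintype.card J = d ∧ Θ'ᴴ * Θ' = 1 ∧ Θᴴ * Θ' = 0 ∧ Θ * Θᴴ + Θ' * Θ'ᴴ = 1 := by
  set col : J → EuclideanSpace ℂ (Fin d) := fun j => WithLp.toLp 2 (fun i => Θ i j) with hcol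
  have hinner : ∀ j j', inner ℂ (col j) (col j') = (Θᴴ * Θ) j j' := by
    intro j j'
    rw [Matrix.mul_apply, PiLp.inner_apply]
    refine Finset.sum_congr rfl fun i _ => ?_
    simp [hcol, Matrix.conjTranspose_apply, mul_comm]
  have hon : Orthonormal ℂ col := by
    rw [orthonormal_iff_ite]
    intro j j'
    rw [hinner, h, Matrix.one_apply]
  have hcard : Fintype.card J ≤ d := by
    have := hon.linearIndependent.fintype_card_le_finrank
    simpa using this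
  set r := d - Fintype.card J with hr
  have hcd : Module.finrank ℂ (EuclideanSpace ℂ (Fin d)) = Fintype.card (J ⊕ Fin r) := by
    simp [hr]
    omega
  set v : J ⊕ Fin r → EuclideanSpace ℂ (Fin d) := Sum.elim col (fun _ => 0) with hv
  have hvs : Orthonormal ℂ ((Set.range (Sum.inl : J → J ⊕ Fin r)).domRestrict v) := by
    rw [orthonormal_iff_ite]
    rintro ⟨x, hx⟩ ⟨y, hy⟩
    obtain ⟨j, rfl⟩ := hx
    obtain ⟨j', rfl⟩ := hy
    have := (orthonormal_iff_ite.1 hon) j j'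
    have h2 : inner ℂ (v (Sum.inl j)) (v (Sum.inl j')) = if j = j' then (1 : ℂ) else 0 := this
    refine h2.trans ?_
    by_cases hj : j = j'
    · subst hj
      rw [if_pos rfl, if_pos rfl]
    · rw [if_neg hj, if_neg]
      intro h3
      exact hj (Sum.inl_injective (congrArg Subtype.val h3))
  obtain ⟨B, hB⟩ := hvs.exists_orthonormalBasis_extension_of_card_eq hcd
  have hBl : ∀ j, B (Sum.inl j) = col j := fun j => by
    rw [hB _ ⟨j, rfl⟩]
    simp [hv]
  set M : Matrix (Fin d) (J ⊕ Fin r) ℂ := Matrix.of fun i x => B x i with hM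
  have hMa : ∀ i x, M i x = B x i := fun _ _ => rfl
  have hMM : Mᴴ * M = 1 := by
    ext x y
    rw [Matrix.mul_apply, Matrix.one_apply]
    have := (orthonormal_iff_ite.1 B.orthonormal) x y
    rw [← this, PiLp.inner_apply]
    refine Finset.sum_congr rfl fun i _ => ?_
    rw [Matrix.conjTranspose_apply, hMa, hMa]
    simp [mul_comm]
  have hMM' : M * Mᴴ = 1 := by
    have hc : Fintype.card (J ⊕ Fin r) = Fintype.card (Fin d) := by
      simp [hr]
      omega
    exact (Matrix.mul_eq_one_comm_of_card_eq _ _ _ hc).1 hMM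
  refine ⟨r, Matrix.of fun i j => B (Sum.inr j) i, by omega, ?_, ?_, ?_⟩
  · ext x y
    have := congrFun (congrFun hMM (Sum.inr x)) (Sum.inr y)
    rw [Matrix.mul_apply] at this ⊢
    simp only [Matrix.one_apply, Sum.inr.injEq] at this ⊢
    exact this
  · ext x y
    have := congrFun (congrFun hMM (Sum.inl x)) (Sum.inr y)
    rw [Matrix.mul_apply] at this ⊢
    simp only [Matrix.one_apply, Matrix.conjTranspose_apply, hMa, hBl, hcol] at this
    simpa [Matrix.conjTranspose_apply] using this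
  · ext x y
    have := congrFun (congrFun hMM' x) y
    rw [← this, Matrix.add_apply, Matrix.mul_apply, Matrix.mul_apply, Matrix.mul_apply,
      Fintype.sum_sum_type]
    congr 1
    refine Finset.sum_congr rfl fun j _ => ?_
    simp [Matrix.conjTranspose_apply, hMa, hBl, hcol]

/-- The near-identity block. -/
def pat (a b : ℕ) (z : ℂ) : Matrix (Fin a) (Fin b) ℂ :=
  Matrix.of fun x y => if (x : ℕ) = (y : ℕ) then z else 0

lemma pat_self (a : ℕ) (z : ℂ) : pat a a z = z • 1 := by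
  ext x y
  simp only [pat, Matrix.of_apply, Matrix.smul_apply, Matrix.one_apply, Fin.ext_iff, smul_eq_mul]
  split_ifs <;> simp

lemma pat_zero (a b : ℕ) : pat a b 0 = 0 := by
  ext x y
  simp [pat]

lemma pat_comm {K : Type} (l : K → ℕ) (M : (κ : K) → Mt (l κ)) (κ κ' : K) (h : κ = κ') (z : ℂ) :
    pat (l κ) (l κ') z * M κ' = M κ * pat (l κ) (l κ') z := by
  subst h
  rw [pat_self]
  simp

/-- Blocks. -/
def blk {I : Type} {l : I → ℕ} (X : Matrix (Σ i : I, Fin (l i)) (Σ i : I, Fin (l i)) ℂ)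
    (i j : I) : Matrix (Fin (l i)) (Fin (l j)) ℂ := Matrix.of fun a b => X ⟨i, a⟩ ⟨j, b⟩

lemma blk_ext {I : Type} {l : I → ℕ} {X Y : Matrix (Σ i : I, Fin (l i)) (Σ i : I, Fin (l i)) ℂ}
    (h : ∀ i j, blk X i j = blk Y i j) : X = Y := by
  ext ⟨i, a⟩ ⟨j, b⟩
  exact congrFun (congrFun (h i j) a) b

lemma blk_bd_mul {I : Type} [Fintype I] [DecidableEq I] {l : I → ℕ}
    (M : (i : I) → Matrix (Fin (l i)) (Fin (l i)) ℂ)
    (X : Matrix (Σ i : I, Fin (l i)) (Σ i : I, Fin (l i)) ℂ) (i j : I) :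
    blk (blockDiagonal' M * X) i j = M i * blk X i j := by
  ext a b
  simp only [blk, Matrix.mul_apply, Fintype.sum_sigma, Matrix.of_apply]
  rw [Finset.sum_eq_single i]
  · refine Finset.sum_congr rfl fun e _ => ?_
    rw [blockDiagonal'_apply_eq]
  · intro i' _ hne
    refine Finset.sum_eq_zero fun e _ => ?_
    rw [blockDiagonal'_apply_ne _ _ _ (Ne.symm hne), zero_mul]
  · intro h
    exact absurd (Finset.mem_univ _) h

lemma blk_mul_bd {I : Type} [Fintype I] [DecidableEq I] {l : I → ℕ}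
    (M : (i : I) → Matrix (Fin (l i)) (Fin (l i)) ℂ)
    (X : Matrix (Σ i : I, Fin (l i)) (Σ i : I, Fin (l i)) ℂ) (i j : I) :
    blk (X * blockDiagonal' M) i j = blk X i j * M j := by
  ext a b
  simp only [blk, Matrix.mul_apply, Fintype.sum_sigma, Matrix.of_apply]
  rw [Finset.sum_eq_single j]
  · refine Finset.sum_congr rfl fun e _ => ?_
    rw [blockDiagonal'_apply_eq]
  · intro i' _ hne
    refine Finset.sum_eq_zero fun e _ => ?_
    rw [blockDiagonal'_apply_ne _ _ _ hne, mul_zero]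
  · intro h
    exact absurd (Finset.mem_univ _) h

lemma Blk_comm {I K : Type} [Fintype I] [DecidableEq I] (c : I → K) (l : K → ℕ)
    (X : Matrix (Jx c l) (Jx c l) ℂ) (hX : Blk c l X) (M : (κ : K) → Mt (l κ)) :
    X * blockDiagonal' (fun i => M (c i)) = blockDiagonal' (fun i => M (c i)) * X := by
  obtain ⟨α, hα, hX⟩ := hX
  have hp : ∀ i j, blk (l := fun i => l (c i)) X i j = pat (l (c i)) (l (c j)) (α i j) := by
    intro i j
    ext a b
    simp only [blk, pat, Matrix.of_apply]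
    rw [hX]
  refine blk_ext fun i j => ?_
  rw [blk_mul_bd, blk_bd_mul, hp]
  by_cases h : c i = c j
  · exact pat_comm l M _ _ h _
  · rw [hα i j h, pat_zero]
    simp

/-- The block diagonal matrices: unitarity. -/
lemma bd_unit {I : Type} [Fintype I] [DecidableEq I] {l : I → ℕ}
    (M : (i : I) → Matrix (Fin (l i)) (Fin (l i)) ℂ) (h : ∀ i, (M i)ᴴ * M i = 1) :
    (blockDiagonal' M)ᴴ * blockDiagonal' M = 1 := by
  rw [blockDiagonal'_conjTranspose, ← blockDiagonal'_mul]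
  simp only [h]
  exact blockDiagonal'_one

/-- The estimate of the distance to a unitary block diagonal matrix. -/
lemma near_bd {d : ℕ} (hU : UniP) {I K : Type} [Fintype I] [DecidableEq I]
    (c : I → K) (l : K → ℕ) (b : (κ : K) → Matrix (Fin d) (Fin (l κ)) ℂ)
    (hb : ∀ κ, (b κ)ᴴ * b κ = 1) (Θ : Matrix (Fin d) (Jx c l) ℂ) (hΘ : Θᴴ * Θ = 1)
    (u : Mt d) (hu : uᴴ * u = 1) :
    ∃ W : (κ : K) → Matrix.unitaryGroup (Fin (l κ)) ℂ,
      ∑ i, hs ((W (c i) : Mt (l (c i))) - (b (c i))ᴴ * u * b (c i))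
        ≤ 4 * hs (u * Θ - Θ * Ut c l b u) := by
  choose W hW using fun κ => hU (l κ) ((b κ)ᴴ * u * b κ)
  refine ⟨W, ?_⟩
  have h1 : ∑ i, hs ((W (c i) : Mt (l (c i))) - (b (c i))ᴴ * u * b (c i)) ≤
      ∑ i, hs (((b (c i))ᴴ * u * b (c i))ᴴ * ((b (c i))ᴴ * u * b (c i)) - 1) := by
    refine Finset.sum_le_sum fun i _ => ?_
    rw [← hs_neg', neg_sub]
    exact hW (c i)
  refine h1.trans ?_
  set T : Matrix (Jx c l) (Jx c l) ℂ := Ut c l b u with hT
  have hTb : T = blockDiagonal' (fun i => (b (c i))ᴴ * u * b (c i)) := Ut_eq c l b u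
  have h2 : ∑ i, hs (((b (c i))ᴴ * u * b (c i))ᴴ * ((b (c i))ᴴ * u * b (c i)) - 1)
      = hs (Tᴴ * T - 1) := by
    rw [hTb, blockDiagonal'_conjTranspose, ← blockDiagonal'_mul, ← blockDiagonal'_one,
      ← blockDiagonal'_sub, hs_bd]
    rfl
  rw [h2]
  have huu : u * uᴴ = 1 := mul_eq_one_comm.1 hu
  have hA : (Θ * T)ᴴ * (Θ * T) = Tᴴ * T := by
    rw [Matrix.conjTranspose_mul, Matrix.mul_assoc, ← Matrix.mul_assoc Θᴴ, hΘ, Matrix.one_mul]
  have hB : (u * Θ)ᴴ * (u * Θ) = 1 := by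
    rw [Matrix.conjTranspose_mul, Matrix.mul_assoc, ← Matrix.mul_assoc uᴴ, hu, Matrix.one_mul, hΘ]
  have h3 : Tᴴ * T - 1 = -((Θ * T)ᴴ * (u * Θ - Θ * T)) + -((u * Θ - Θ * T)ᴴ * (u * Θ)) := by
    rw [← hA, ← hB, Matrix.mul_sub, Matrix.conjTranspose_sub, Matrix.sub_mul]
    abel
  rw [h3]
  refine (hs_add2 _ _).trans ?_
  rw [hs_neg', hs_neg']
  have h4 : hs ((Θ * T)ᴴ * (u * Θ - Θ * T)) ≤ hs (u * Θ - Θ * T) := by
    rw [Matrix.conjTranspose_mul, Matrix.mul_assoc]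
    refine le_trans ?_ (hs_coiso_left Θ hΘ (u * Θ - Θ * T))
    generalize Θᴴ * (u * Θ - Θ * T) = Y
    rw [hTb, blockDiagonal'_conjTranspose, hs_rb, hs_rb Y]
    refine Finset.sum_le_sum fun i _ => ?_
    rw [rb_mul]
    rw [Matrix.conjTranspose_mul, Matrix.conjTranspose_mul, Matrix.conjTranspose_conjTranspose,
      Matrix.mul_assoc, Matrix.mul_assoc]
    refine (hs_coiso_left (b (c i)) (hb _) _).trans ?_
    have huh : (uᴴ)ᴴ * uᴴ = 1 := by rw [Matrix.conjTranspose_conjTranspose, huu]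
    rw [hs_iso_left uᴴ huh, hs_iso_left (b (c i)) (hb _)]
  have h5 : hs ((u * Θ - Θ * T)ᴴ * (u * Θ)) ≤ hs (u * Θ - Θ * T) := by
    rw [← hs_conj, Matrix.conjTranspose_mul, Matrix.conjTranspose_conjTranspose]
    exact hs_coiso_left (u * Θ) hB _
  linarith

open Classical in
/-- Assembly for one family. -/
lemma asm {d k : ℕ} (hk : 2 ≤ k) {I K : Type} [Fintype I] [DecidableEq I] [DecidableEq K]
    (hG : Ge1P) (hU : UniP) (c : I → K) (l : K → ℕ) (b : (κ : K) → Matrix (Fin d) (Fin (l κ)) ℂ)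
    (hb : ∀ κ, (b κ)ᴴ * b κ = 1) (Θ : Matrix (Fin d) (Jx c l) ℂ) (hΘ : Θᴴ * Θ = 1)
    (U : Fin k → Matrix.unitaryGroup (Fin d) ℂ) (r : ℕ) (ε0 : ℝ) (h0 : 0 < ε0) :
    ∃ (M : Fin k → (κ : K) → Matrix.unitaryGroup (Fin (l κ)) ℂ)
      (N : Fin k → Matrix.unitaryGroup (Fin r) ℂ),
      (∀ s, ∑ i, hs ((M s (c i) : Mt (l (c i))) - (b (c i))ᴴ * (U s : Mt d) * b (c i)) ≤
        8 * hs ((U s : Mt d) * Θ - Θ * Ut c l b (U s : Mt d)) + 2 * (Fintype.card I * ε0)) ∧
      (∀ (i j : I) (y : Matrix (Fin (l (c i))) (Fin (l (c j))) ℂ),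
        (∀ s, (M s (c i) : Mt (l (c i))) * y = y * (M s (c j) : Mt (l (c j)))) →
        ∃ z : ℂ, (c i ≠ c j → z = 0) ∧ y = pat (l (c i)) (l (c j)) z) ∧
      (∀ (i : I) (y : Matrix (Fin (l (c i))) (Fin r) ℂ),
        (∀ s, (M s (c i) : Mt (l (c i))) * y = y * (N s : Mt r)) → y = 0) ∧
      (∀ (i : I) (y : Matrix (Fin r) (Fin (l (c i))) ℂ),
        (∀ s, (N s : Mt r) * y = y * (M s (c i) : Mt (l (c i)))) → y = 0) ∧
      (∀ (y : Mt r), (∀ s, (N s : Mt r) * y = y * (N s : Mt r)) → ∃ z : ℂ, y = z • 1) := by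
  have hUu : ∀ s, (U s : Mt d)ᴴ * (U s : Mt d) = 1 := fun s =>
    Matrix.mem_unitaryGroup_iff'.1 (U s).2
  choose W hW using fun s => near_bd hU c l b hb Θ hΘ (U s : Mt d) (hUu s)
  let l' : Option (Set.range c) → ℕ := fun o => o.elim r (fun κ => l κ)
  let i0 : Fin 2 → Fin k := fun s => ⟨s.val, by omega⟩
  let W' : Fin 2 → (o : Option (Set.range c)) → Matrix.unitaryGroup (Fin (l' o)) ℂ :=
    fun s o => match o with
      | none => 1
      | some κ => W (i0 s) κ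
  obtain ⟨V, hV1, hV2, hV3⟩ := hG (Option (Set.range c)) l' W' ε0 h0
  let V1 : Fin 2 → (κ : Set.range c) → Matrix.unitaryGroup (Fin (l κ)) ℂ := fun s κ =>
    V s (some κ)
  let V0 : Fin 2 → Matrix.unitaryGroup (Fin r) ℂ := fun s => V s none
  let M : Fin k → (κ : K) → Matrix.unitaryGroup (Fin (l κ)) ℂ := fun s κ =>
    if hs : s.val < 2 then
      (if h : κ ∈ Set.range c then V1 ⟨s.val, hs⟩ ⟨κ, h⟩ else 1) else W s κ
  let N : Fin k → Matrix.unitaryGroup (Fin r) ℂ := fun s =>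
    if hs : s.val < 2 then V0 ⟨s.val, hs⟩ else 1
  have hM0 : ∀ (s : Fin 2) (i : I), M (i0 s) (c i) = V1 s ⟨c i, Set.mem_range_self i⟩ := by
    intro s i
    have : (i0 s).val < 2 := s.2
    simp only [M]
    rw [dif_pos this, dif_pos (Set.mem_range_self i)]
  have hN0 : ∀ (s : Fin 2), N (i0 s) = V0 s := by
    intro s
    have : (i0 s).val < 2 := s.2
    simp only [N]
    rw [dif_pos this]
  refine ⟨M, N, ?_, ?_, ?_, ?_, ?_⟩
  · intro s
    have h1 : ∀ i, hs ((M s (c i) : Mt (l (c i))) - (W s (c i) : Mt (l (c i)))) ≤ ε0 := by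
      intro i
      by_cases hs2 : s.val < 2
      · have h3 := hV1 ⟨s.val, hs2⟩ (some ⟨c i, Set.mem_range_self i⟩)
        have h4 := hM0 ⟨s.val, hs2⟩ i
        have h5 : i0 ⟨s.val, hs2⟩ = s := rfl
        rw [h5] at h4
        rw [h4]
        exact h3
      · have h4 : M s (c i) = W s (c i) := by
          simp only [M]
          rw [dif_neg hs2]
        rw [h4, sub_self]
        simp only [hs, Matrix.zero_apply, norm_zero]
        simp [h0.le]
    have h2 : ∑ i, hs ((M s (c i) : Mt (l (c i))) - (b (c i))ᴴ * (U s : Mt d) * b (c i)) ≤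
        ∑ i, (2 * ε0 + 2 * hs ((W s (c i) : Mt (l (c i))) -
          (b (c i))ᴴ * (U s : Mt d) * b (c i))) := by
      refine Finset.sum_le_sum fun i _ => ?_
      have h3 : (M s (c i) : Mt (l (c i))) - (b (c i))ᴴ * (U s : Mt d) * b (c i) =
        ((M s (c i) : Mt (l (c i))) - (W s (c i) : Mt (l (c i)))) +
        ((W s (c i) : Mt (l (c i))) - (b (c i))ᴴ * (U s : Mt d) * b (c i)) := by abel
      rw [h3]
      refine (hs_add2 _ _).trans ?_
      have := h1 i
      linarith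
    refine h2.trans ?_
    have h3 := hW s
    have h4 : ∑ i, (2 * ε0 + 2 * hs ((W s (c i) : Mt (l (c i))) -
          (b (c i))ᴴ * (U s : Mt d) * b (c i))) = 2 * (Fintype.card I * ε0) +
          2 * ∑ i, hs ((W s (c i) : Mt (l (c i))) - (b (c i))ᴴ * (U s : Mt d) * b (c i)) := by
      rw [Finset.sum_add_distrib, Finset.mul_sum, Finset.sum_const, Finset.card_univ,
        nsmul_eq_mul]
      ring
    rw [h4]
    linarith
  · intro i j y hy
    have hy' : ∀ s, (V1 s ⟨c i, Set.mem_range_self i⟩ : Mt (l (c i))) * y =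
        y * (V1 s ⟨c j, Set.mem_range_self j⟩ : Mt (l (c j))) := by
      intro s
      have := hy (i0 s)
      rw [hM0, hM0] at this
      exact this
    by_cases h : c i = c j
    · have key : ∀ (κ κ' : Set.range c) (y : Matrix (Fin (l κ)) (Fin (l κ')) ℂ), κ = κ' →
          (∀ s, (V1 s κ : Mt (l κ)) * y = y * (V1 s κ' : Mt (l κ'))) →
          ∃ z : ℂ, y = pat (l κ) (l κ') z := by
        intro κ κ' y hh hy
        subst hh
        obtain ⟨z, hz⟩ := hV3 (some κ) y hy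
        exact ⟨z, by rw [pat_self]; exact hz⟩
      obtain ⟨z, hz⟩ := key ⟨c i, Set.mem_range_self i⟩ ⟨c j, Set.mem_range_self j⟩ y
        (Subtype.ext h) hy'
      exact ⟨z, fun hne => absurd h hne, hz⟩
    · refine ⟨0, fun _ => rfl, ?_⟩
      rw [pat_zero]
      refine hV2 (some ⟨c i, Set.mem_range_self i⟩) (some ⟨c j, Set.mem_range_self j⟩) y ?_ hy'
      intro h3
      exact h (congrArg Subtype.val (Option.some_injective _ h3))
  · intro i y hy
    refine hV2 (some ⟨c i, Set.mem_range_self i⟩) none y (by simp) ?_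
    intro s
    have := hy (i0 s)
    rw [hM0, hN0] at this
    exact this
  · intro i y hy
    refine hV2 none (some ⟨c i, Set.mem_range_self i⟩) y (by simp) ?_
    intro s
    have := hy (i0 s)
    rw [hM0, hN0] at this
    exact this
  · intro y hy
    refine hV3 none y ?_
    intro s
    have := hy (i0 s)
    rw [hN0] at this
    exact this

lemma rb_ext {I n : Type} {l : I → ℕ} {X Y : Matrix (Σ i : I, Fin (l i)) n ℂ}
    (h : ∀ i, rb X i = rb Y i) : X = Y := by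
  ext ⟨i, a⟩ j
  exact congrFun (congrFun (h i) a) j

lemma rb_mul_right {I n : Type} [Fintype n] {l : I → ℕ} (Y : Matrix (Σ i : I, Fin (l i)) n ℂ)
    (N : Matrix n n ℂ) (i : I) : rb (Y * N) i = rb Y i * N := by
  ext a j
  simp [rb, Matrix.mul_apply]

lemma comm4 {n p q : Type} [Fintype n] [Fintype p] [Fintype q] (A : Matrix p n ℂ)
    (B : Matrix n q ℂ) (V x : Matrix n n ℂ) (DA : Matrix p p ℂ) (DB : Matrix q q ℂ)
    (hA : A * V = DA * A) (hB : V * B = B * DB) (hx : x * V = V * x) :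
    DA * (A * x * B) = (A * x * B) * DB := by
  calc DA * (A * x * B) = (DA * A) * x * B := by simp only [Matrix.mul_assoc]
    _ = A * V * x * B := by rw [hA]
    _ = A * (V * x) * B := by simp only [Matrix.mul_assoc]
    _ = A * (x * V) * B := by rw [hx]
    _ = A * x * (V * B) := by simp only [Matrix.mul_assoc]
    _ = A * x * (B * DB) := by rw [hB]
    _ = _ := by simp only [Matrix.mul_assoc]

theorem main (hU : UniP) (hG : Ge1P) : Ge2P := by
  intro k ε hk hε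
  refine ⟨ε / 100, by positivity, ?_⟩
  intro d U O b hd hb hnear hcard
  obtain ⟨r, Θ', hr, hΘ', hΘΘ', hsum⟩ := exists_compl O.Θ O.iso
  have hd' : (0 : ℝ) < d := by exact_mod_cast hd
  set ε0 : ℝ := ε * d / (12 * (Fintype.card O.I + 1)) with hε0
  have h0 : 0 < ε0 := by positivity
  obtain ⟨M, N, hM1, hM2, hM3, hM4, hM5⟩ := asm hk hG hU O.c O.l b hb O.Θ O.iso U r ε0 h0
  have hΘ'Θ : Θ'ᴴ * O.Θ = 0 := by
    rw [← Matrix.conjTranspose_conjTranspose (Θ'ᴴ * O.Θ), Matrix.conjTranspose_mul,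
      Matrix.conjTranspose_conjTranspose, hΘΘ', Matrix.conjTranspose_zero]
  have hcompl : 1 - O.Θ * O.Θᴴ = Θ' * Θ'ᴴ := by rw [← hsum]; abel
  have hUu : ∀ s, (U s : Mt d)ᴴ * (U s : Mt d) = 1 := fun s =>
    Matrix.mem_unitaryGroup_iff'.1 (U s).2
  have hMu : ∀ s κ, (M s κ : Mt (O.l κ))ᴴ * (M s κ : Mt (O.l κ)) = 1 := fun s κ =>
    Matrix.mem_unitaryGroup_iff'.1 (M s κ).2
  have hNu : ∀ s, (N s : Mt r)ᴴ * (N s : Mt r) = 1 := fun s =>
    Matrix.mem_unitaryGroup_iff'.1 (N s).2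
  set D : Fin k → Matrix (Jx O.c O.l) (Jx O.c O.l) ℂ := fun s =>
    blockDiagonal' (fun i => (M s (O.c i) : Mt (O.l (O.c i)))) with hD
  have hDu : ∀ s, (D s)ᴴ * D s = 1 := fun s => bd_unit _ (fun i => hMu s (O.c i))
  set Vm : Fin k → Mt d := fun s => O.Θ * D s * O.Θᴴ + Θ' * (N s : Mt r) * Θ'ᴴ with hVm
  have hVΘ : ∀ s, Vm s * O.Θ = O.Θ * D s := by
    intro s
    simp only [hVm]
    rw [Matrix.add_mul, Matrix.mul_assoc (O.Θ * D s), O.iso, Matrix.mul_one,
      Matrix.mul_assoc (Θ' * (N s : Mt r)), hΘ'Θ, Matrix.mul_zero, add_zero]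
  have hVΘ' : ∀ s, Vm s * Θ' = Θ' * (N s : Mt r) := by
    intro s
    simp only [hVm]
    rw [Matrix.add_mul, Matrix.mul_assoc (O.Θ * D s), hΘΘ', Matrix.mul_zero,
      Matrix.mul_assoc (Θ' * (N s : Mt r)), hΘ', Matrix.mul_one, zero_add]
  have hΘV : ∀ s, O.Θᴴ * Vm s = D s * O.Θᴴ := by
    intro s
    simp only [hVm]
    rw [Matrix.mul_add, Matrix.mul_assoc O.Θ, ← Matrix.mul_assoc O.Θᴴ, O.iso, Matrix.one_mul,
      Matrix.mul_assoc Θ', ← Matrix.mul_assoc O.Θᴴ Θ', hΘΘ', Matrix.zero_mul, add_zero]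
  have hΘ'V : ∀ s, Θ'ᴴ * Vm s = (N s : Mt r) * Θ'ᴴ := by
    intro s
    simp only [hVm]
    rw [Matrix.mul_add, Matrix.mul_assoc O.Θ, ← Matrix.mul_assoc Θ'ᴴ, hΘ'Θ, Matrix.zero_mul,
      Matrix.mul_assoc Θ', ← Matrix.mul_assoc Θ'ᴴ Θ', hΘ', Matrix.one_mul, zero_add]
  have hVu : ∀ s, (Vm s)ᴴ * Vm s = 1 := by
    intro s
    have e1 : (Vm s)ᴴ = O.Θ * (D s)ᴴ * O.Θᴴ + Θ' * (N s : Mt r)ᴴ * Θ'ᴴ := by
      simp only [hVm]
      rw [Matrix.conjTranspose_add]
      simp only [Matrix.conjTranspose_mul, Matrix.conjTranspose_conjTranspose, Matrix.mul_assoc]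
    rw [e1, Matrix.add_mul, Matrix.mul_assoc (O.Θ * (D s)ᴴ), hΘV,
      Matrix.mul_assoc (Θ' * (N s : Mt r)ᴴ), hΘ'V, ← Matrix.mul_assoc (O.Θ * (D s)ᴴ),
      Matrix.mul_assoc O.Θ, hDu, Matrix.mul_one, ← Matrix.mul_assoc (Θ' * (N s : Mt r)ᴴ),
      Matrix.mul_assoc Θ', hNu, Matrix.mul_one, hsum]
  refine ⟨fun s => ⟨Vm s, Matrix.mem_unitaryGroup_iff'.2 (hVu s)⟩, ?_, ?_⟩
  · intro s
    have hs1 : hs ((U s : Mt d) * O.Θ - O.Θ * Ut O.c O.l b (U s : Mt d)) ≤ ε / 100 * d := by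
      refine le_trans ?_ hnear
      exact Finset.single_le_sum
        (f := fun s => hs ((U s : Mt d) * O.Θ - O.Θ * Ut O.c O.l b (U s : Mt d)))
        (fun i _ => hs_nn _) (Finset.mem_univ s)
    have e1 : Vm s - (U s : Mt d) =
        (O.Θ * (D s - Ut O.c O.l b (U s : Mt d))) * O.Θᴴ +
        (-((U s : Mt d) * O.Θ - O.Θ * Ut O.c O.l b (U s : Mt d))) * O.Θᴴ +
        (Θ' * (N s : Mt r) - (U s : Mt d) * Θ') * Θ'ᴴ := by
      have e2 : (U s : Mt d) = (U s : Mt d) * O.Θ * O.Θᴴ + (U s : Mt d) * Θ' * Θ'ᴴ := by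
        rw [Matrix.mul_assoc, Matrix.mul_assoc, ← Matrix.mul_add, hsum, Matrix.mul_one]
      simp only [hVm]
      conv_lhs => rw [e2]
      simp only [Matrix.mul_sub, Matrix.sub_mul, neg_sub]
      abel
    change hs (Vm s - (U s : Mt d)) ≤ ε * d
    rw [e1]
    refine (hs_add3 _ _ _).trans ?_
    rw [hs_iso_right O.Θ O.iso, hs_iso_right O.Θ O.iso, hs_iso_right Θ' hΘ',
      hs_iso_left O.Θ O.iso, hs_neg']
    have h3 : hs (D s - Ut O.c O.l b (U s : Mt d)) ≤
        8 * hs ((U s : Mt d) * O.Θ - O.Θ * Ut O.c O.l b (U s : Mt d)) +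
          2 * (Fintype.card O.I * ε0) := by
      refine le_trans (le_of_eq ?_) (hM1 s)
      rw [Ut_eq]
      simp only [hD]
      rw [← blockDiagonal'_sub, hs_bd]
      rfl
    have h4 : hs (Θ' * (N s : Mt r) - (U s : Mt d) * Θ') ≤ 4 * r := by
      refine (hs_sub2 _ _).trans ?_
      have e3 : hs (Θ' * (N s : Mt r)) = r := by
        rw [hs_iso_left Θ' hΘ', ← Matrix.mul_one (N s : Mt r), hs_iso_left _ (hNu s), hs_one]
        simp
      have e4 : hs ((U s : Mt d) * Θ') = r := by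
        rw [hs_iso_left _ (hUu s), ← Matrix.mul_one Θ', hs_iso_left _ hΘ', hs_one]
        simp
      rw [e3, e4]
      linarith
    have h5 : (r : ℝ) ≤ ε / 100 * d := by
      have : (d : ℝ) = r + Fintype.card (Jx O.c O.l) := by exact_mod_cast hr.symm
      linarith
    have h6 : (Fintype.card O.I : ℝ) * ε0 ≤ ε * d / 12 := by
      rw [hε0]
      have hc0 : (0 : ℝ) ≤ Fintype.card O.I := Nat.cast_nonneg _
      have hed : 0 < ε * d := by positivity
      rw [mul_div_assoc', div_le_div_iff₀ (by positivity) (by norm_num)]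
      nlinarith
    nlinarith [mul_pos hε hd']
  · intro x
    constructor
    · intro hx
      have hx' : ∀ s, x * Vm s = Vm s * x := hx
      have hx11 : ∀ s, D s * (O.Θᴴ * x * O.Θ) = (O.Θᴴ * x * O.Θ) * D s := fun s =>
        comm4 _ _ _ _ _ _ (hΘV s) (hVΘ s) (hx' s)
      have hx12 : ∀ s, D s * (O.Θᴴ * x * Θ') = (O.Θᴴ * x * Θ') * (N s : Mt r) := fun s =>
        comm4 _ _ _ _ _ _ (hΘV s) (hVΘ' s) (hx' s)
      have hx21 : ∀ s, (N s : Mt r) * (Θ'ᴴ * x * O.Θ) = (Θ'ᴴ * x * O.Θ) * D s := fun s =>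
        comm4 _ _ _ _ _ _ (hΘ'V s) (hVΘ s) (hx' s)
      have hx22 : ∀ s, (N s : Mt r) * (Θ'ᴴ * x * Θ') = (Θ'ᴴ * x * Θ') * (N s : Mt r) := fun s =>
        comm4 _ _ _ _ _ _ (hΘ'V s) (hVΘ' s) (hx' s)
      -- the blocks
      set X := O.Θᴴ * x * O.Θ with hXdef
      have hblk : ∀ i j, ∃ z : ℂ, (O.c i ≠ O.c j → z = 0) ∧
          blk (l := fun i => O.l (O.c i)) X i j = pat (O.l (O.c i)) (O.l (O.c j)) z := by
        intro i j
        refine hM2 i j _ fun s => ?_
        have := congrArg (fun Y => blk (l := fun i => O.l (O.c i)) Y i j) (hx11 s)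
        simp only [hD] at this
        rw [blk_bd_mul, blk_mul_bd] at this
        exact this
      choose α hα1 hα2 using hblk
      obtain ⟨z, hz⟩ := hM5 _ hx22
      have h12 : O.Θᴴ * x * Θ' = 0 := by
        refine rb_ext (l := fun i => O.l (O.c i)) fun i => ?_
        have h1 : rb (l := fun i => O.l (O.c i)) (O.Θᴴ * x * Θ') i = 0 := by
          refine hM3 i _ fun s => ?_
          have := congrArg (fun Y => rb (l := fun i => O.l (O.c i)) Y i) (hx12 s)
          simp only [hD] at this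
          rw [rb_mul, rb_mul_right] at this
          exact this
        rw [h1]
        rfl
      have h21 : Θ'ᴴ * x * O.Θ = 0 := by
        have hx21' := hx21
        generalize Θ'ᴴ * x * O.Θ = Z at hx21' ⊢
        have key : Zᴴ = 0 := by
          refine rb_ext (l := fun i => O.l (O.c i)) fun i => ?_
          have h1 : (rb (l := fun i => O.l (O.c i)) (Zᴴ) i)ᴴ = 0 := by
            refine hM4 i _ fun s => ?_
            have h2 : Zᴴ * (N s : Mt r)ᴴ = (D s)ᴴ * Zᴴ := by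
              rw [← Matrix.conjTranspose_mul, ← Matrix.conjTranspose_mul, hx21' s]
            have h3 := congrArg (fun Y => rb (l := fun i => O.l (O.c i)) Y i) h2
            simp only [hD] at h3
            rw [blockDiagonal'_conjTranspose, rb_mul, rb_mul_right] at h3
            have h4 := congrArg Matrix.conjTranspose h3
            rw [Matrix.conjTranspose_mul, Matrix.conjTranspose_mul,
              Matrix.conjTranspose_conjTranspose, Matrix.conjTranspose_conjTranspose] at h4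
            exact h4
          have h5 := congrArg Matrix.conjTranspose h1
          rw [Matrix.conjTranspose_conjTranspose, Matrix.conjTranspose_zero] at h5
          rw [h5]
          rfl
        have h6 := congrArg Matrix.conjTranspose key
        rwa [Matrix.conjTranspose_conjTranspose, Matrix.conjTranspose_zero] at h6
      refine ⟨O.Θ * X * O.Θᴴ, ⟨X, ⟨α, hα1, ?_⟩, rfl⟩, z, ?_⟩
      · rintro ⟨i, a⟩ ⟨j, e⟩
        exact congrFun (congrFun (hα2 i j) a) e
      · have e1 : x = (O.Θ * O.Θᴴ + Θ' * Θ'ᴴ) * x * (O.Θ * O.Θᴴ + Θ' * Θ'ᴴ) := by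
          rw [hsum, Matrix.one_mul, Matrix.mul_one]
        have e2 : (O.Θ * O.Θᴴ + Θ' * Θ'ᴴ) * x * (O.Θ * O.Θᴴ + Θ' * Θ'ᴴ) =
            O.Θ * (O.Θᴴ * x * O.Θ) * O.Θᴴ + O.Θ * (O.Θᴴ * x * Θ') * Θ'ᴴ +
            Θ' * (Θ'ᴴ * x * O.Θ) * O.Θᴴ + Θ' * (Θ'ᴴ * x * Θ') * Θ'ᴴ := by
          simp only [Matrix.add_mul, Matrix.mul_add, Matrix.mul_assoc]
          abel
        rw [hcompl]
        conv_lhs => rw [e1, e2, h12, h21, hz]
        simp [hXdef]
    · rintro ⟨a, ⟨X, hX, rfl⟩, z, rfl⟩ s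
      change (O.Θ * X * O.Θᴴ + z • (1 - O.Θ * O.Θᴴ)) * Vm s =
        Vm s * (O.Θ * X * O.Θᴴ + z • (1 - O.Θ * O.Θᴴ))
      have hc : X * D s = D s * X := Blk_comm O.c O.l X hX (fun κ => (M s κ : Mt (O.l κ)))
      rw [hcompl]
      calc (O.Θ * X * O.Θᴴ + z • (Θ' * Θ'ᴴ)) * Vm s
          = O.Θ * X * (O.Θᴴ * Vm s) + z • (Θ' * (Θ'ᴴ * Vm s)) := by
            simp only [Matrix.add_mul, Matrix.smul_mul, Matrix.mul_assoc]
        _ = O.Θ * (X * D s) * O.Θᴴ + z • (Θ' * (N s : Mt r) * Θ'ᴴ) := by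
            rw [hΘV, hΘ'V]
            simp only [Matrix.mul_assoc]
        _ = (O.Θ * D s) * X * O.Θᴴ + z • (Θ' * (N s : Mt r) * Θ'ᴴ) := by
            rw [hc]
            simp only [Matrix.mul_assoc]
        _ = (Vm s * O.Θ) * X * O.Θᴴ + z • ((Vm s * Θ') * Θ'ᴴ) := by
            rw [hVΘ, hVΘ']
        _ = _ := by
            simp only [Matrix.mul_add, Matrix.mul_smul, Matrix.mul_assoc]

end

end Pool.Agent.W18.RC.GE2
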